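import Mathlib
import Pool.Agent.Q277.HalfFiveC

/-!
# MP_995bae_nt, Q1

For every prime `p > 3`,
`∑_{k=0}^{(p-1)/2} (205k^2+160k+32)(-1)^k C(2k,k)^5 ≡ 32p^2 + (896/3) p^5 B_{p-3} (mod p^6)`.
-/

namespace Pool.Agent.Results.MP_995bae_nt.HalfRange

open Finset Pool.Agent.H434R2 PO Q277.HalfFive

/-- `a ≡ b (mod p^m)` for rational numbers: `(a - b)/p^m` has denominator coprime to `p`. -/
def RatCong (p m : ℕ) (a b : ℚ) : Prop := Nat.Coprime ((a - b) / (p : ℚ) ^ m).den p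

/-- `S(p) = ∑_{k=0}^{(p-1)/2} (205k^2+160k+32)(-1)^k C(2k,k)^5` -/
def S (p : ℕ) : ℤ := ∑ k ∈ range ((p - 1) / 2 + 1), (205 * (k : ℤ) ^ 2 + 160 * k + 32) * (-1) ^ k
  * (((2 * k).choose k : ℕ) : ℤ) ^ 5

theorem SS_p {p : ℕ} [hp : Fact p.Prime] {n : ℕ} (hn : 2 * n + 1 = p) (h2 : p ≠ 2) :
    PO p 4 (SS n - (p : ℚ) ^ 3 * bernoulli (p - 3)) := by
  have hpQ : (2 * (n : ℚ) + 1) = (p : ℚ) := by exact_mod_cast hn
  have h := double_harmonic (p := p) h2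
  have e : SS n = (p : ℚ) ^ 3 * ∑ b ∈ range (p - 1), (1 / ((b : ℚ) + 1) ^ 2) * ∑ a ∈ range b, 1 / ((a : ℚ) + 1) := by
    unfold SS
    have hr : 2 * n = p - 1 := by omega
    rw [hr, mul_sum]
    apply sum_congr rfl
    intro b _
    have : ∑ a ∈ range b, vv n a = (p : ℚ) * ∑ a ∈ range b, 1 / ((a : ℚ) + 1) := by
      rw [mul_sum]
      apply sum_congr rfl
      intro a _
      unfold vv
      rw [hpQ]; ring
    rw [this]
    unfold vv
    rw [hpQ, div_pow]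
    ring
  rw [e, ← mul_sub]
  exact ((PO.ppow (p := p) 3).mul h).mono (by norm_num)

theorem result (p : ℕ) (hp : p.Prime) (h3 : 3 < p) :
    RatCong p 6 (S p : ℚ) (32 * (p : ℚ) ^ 2 + 896 / 3 * (p : ℚ) ^ 5 * bernoulli (p - 3)) := by
  have : Fact p.Prime := ⟨hp⟩
  have h2 : p ≠ 2 := by omega
  obtain ⟨n, hn⟩ : ∃ n, 2 * n + 1 = p := by
    rcases hp.eq_two_or_odd with h | h
    · exact absurd h h2
    · exact ⟨p / 2, by omega⟩
  have hpQ : (2 * (n : ℚ) + 1) = (p : ℚ) := by exact_mod_cast hn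
  have hp0 : (p : ℚ) ≠ 0 := by exact_mod_cast hp.ne_zero
  have hp1 : PO p 1 (p : ℚ) := by
    have := ppow (p := p) 1
    rwa [pow_one] at this
  have hv : ∀ i < 2 * n, PO p 1 (vv n i) := by
    intro i hi
    unfold vv
    have e : (2 * (n : ℚ) + 1) / (i + 1) = (p : ℚ) * (((i + 1 : ℕ) : ℚ))⁻¹ := by
      rw [hpQ]; push_cast; rw [div_eq_mul_inv]
    rw [e]
    refine hp1.mul0' (inv_nat ?_)
    intro hd
    have := Nat.le_of_dvd (by omega) hd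
    omega
  have hT := T_PO hv hn
  have hL := LL_PO hv
  have hR := R1 hv
  have hX := XX_P3 hv h2
  have h3P := three_P2 hv h2
  have hS := SS_P3 hv h2
  have hB := SS_p hn h2
  have i3 : PO p 0 ((3 : ℚ)⁻¹) := by
    have h : ¬ p ∣ 3 := fun h => by
      have := Nat.le_of_dvd (by norm_num) h
      omega
    have := inv_nat (p := p) h
    exact_mod_cast this
  have i28 : PO p 0 ((28 : ℚ) * (3 : ℚ)⁻¹) := (of_ofNat 28).mul0 i3
  have t2 : PO p 0 (2 : ℚ) := of_ofNat 2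
  have t32 : PO p 0 (32 : ℚ) := of_ofNat 32
  set X := ((2 * n).choose n : ℚ) ^ 2
      * (∑ k ∈ range (n + 1), (-1) ^ k * ((2 * n + 1).choose k : ℚ) * ((n + k).choose k : ℚ) ^ 2) with hXdef
  have key : PO p 4 (X - (1 + 28 / 3 * ((p : ℚ) ^ 3 * bernoulli (p - 3)))) := by
    have e : X - (1 + 28 / 3 * ((p : ℚ) ^ 3 * bernoulli (p - 3)))
        = (X - (1 - 2 * PP n 2) - (2 * (n : ℚ) + 1) ^ 2 * LL n)
          + ((2 * (n : ℚ) + 1) ^ 2 * LL n - (QQ n 2 + PP n 2 - 2 * PP n 3 - 2 * XX n))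
          + (QQ n 2 - (2 * PP n 2 + 2 * PP n 3))
          - 2 * (XX n - (7 / 4) * PP n 3)
          + (3 : ℚ)⁻¹ * (3 * PP n 2 + (7 / 2) * PP n 3)
          - (28 * (3 : ℚ)⁻¹) * (SS n + (1 / 2) * PP n 3)
          + (28 * (3 : ℚ)⁻¹) * (SS n - (p : ℚ) ^ 3 * bernoulli (p - 3)) := by
      ring
    rw [e]
    exact (((((hT.add hL).add hR).sub (t2.mul0 hX)).add (i3.mul0 h3P)).sub (i28.mul0 hS)).add (i28.mul0 hB)
  have hSum : (S p : ℚ) = 32 * (p : ℚ) ^ 2 * X := by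
    have h := main_id' n
    unfold S
    rw [show (p - 1) / 2 = n by omega]
    push_cast
    rw [h, hXdef, hpQ]
    ring
  unfold RatCong
  have e : ((S p : ℚ) - (32 * (p : ℚ) ^ 2 + 896 / 3 * (p : ℚ) ^ 5 * bernoulli (p - 3)))
      = 32 * ((p : ℚ) ^ 2 * (X - (1 + 28 / 3 * ((p : ℚ) ^ 3 * bernoulli (p - 3))))) := by
    rw [hSum]
    ring
  rw [e]
  have hfin : PO p 6 (32 * ((p : ℚ) ^ 2 * (X - (1 + 28 / 3 * ((p : ℚ) ^ 3 * bernoulli (p - 3)))))) :=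
    (t32.mul0 ((ppow (p := p) 2).mul key)).mono (by norm_num)
  obtain ⟨r, hr, hr2⟩ := exists_rep hfin
  rw [hr2, mul_div_assoc, mul_comm, div_mul_cancel₀ r (pow_ne_zero 6 hp0)]
  exact hr

end Pool.Agent.Results.MP_995bae_nt.HalfRange
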